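import Pool.Agent.Q72.HJ.Two

/-!
# Hartshorne's conjecture on Chow groups of hypersurfaces and correspondences between hypersurfaces

`𝒱` is the class of smooth projective complex varieties (or any class of smooth proper varieties over
a field `k` closed under products with the properties below), `C` the Chow groups with rational
coefficients (in the form of their formal properties, `IsChowProj`). The relation `Hyp X h` means
that `X` is a smooth hypersurface of a fixed degree `d ≥ 2` in projective space, of dimension `≥ 1`,
and `h` is the hyperplane class. The hypothesis `HasJoins` states known facts about them: the join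
`W : g(x) + f(y) = 0` of two hypersurfaces `X : g(x) = 0` and `Y : f(y) = 0`, and the existence of a
smooth surface of degree `d` with a primitive algebraic class of degree two.

Theorem. For each degree `d ≥ 2` Hartshorne's conjecture (`A^i(X) = ℚ h^i` for all smooth
hypersurfaces `X` of degree `d` and all `i < dim X / 2`) holds if and only if for all smooth
hypersurfaces `X`, `Y` of degree `d` and all `i < (dim X + dim Y) / 2` all correspondences in
`A^i(X × Y)` are decomposable, in the form `∑ h^a × y_a + ∑ x_a × l^a`. (In the language of motives:
there are no non-zero morphisms between twists of the primitive motives of hypersurfaces of degree `d`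
in the direction which is excluded by the weights.)

The proof: the lines which join points of `X` and `Y` give maps `A^i(X × Y) → A^(i+1)(W)` and back,
whose composition is `-d`, up to decomposable correspondences; `i < (dim X + dim Y) / 2` if and only
if `i + 1 < dim W / 2`. For the converse `Y` is a surface with a class `b` with `l b = 0`, `b^2 ≠ 0`:
if `z × b` is decomposable then `z` is a multiple of `h^i`.
-/

open CategoryTheory AlgebraicGeometry

set_option autoImplicit false

universe u v

namespace Pool.Agent.Results.MP_4be043_ag.CorrespondencesOfHypersurfaces

open Pool.Agent.H914 Pool.Agent.W492.BB Pool.Agent.TH133 Pool.Agent.Q72.DP Pool.Agent.Q72.HJ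

/-- Hartshorne's conjecture on the Chow groups of the hypersurfaces of degree `d` is equivalent to the
decomposability of all correspondences in `A^i(X × Y)`, `i < (dim X + dim Y) / 2`, between
hypersurfaces of degree `d`. -/
theorem result {k : Type u} [Field k] {𝒱 : VarClass k} (C : TheoryData.{u, v, 0} 𝒱 ℚ)
    [IsChowProj C] (d : ℕ) (hd : 2 ≤ d) (Hyp : (X : 𝒱.Obj) → C.A X → Prop)
    (hH : HasJoins C d Hyp) :
    (∀ (X : 𝒱.Obj) (h : C.A X), Hyp X h → ∀ i : ℕ, 2 * i < X.dim → SpannedBy h i) ↔
      ∀ (X Y : 𝒱.Obj) (h : C.A X) (l : C.A Y), Hyp X h → Hyp Y l → ∀ i : ℕ,
        2 * i < X.dim + Y.dim → ∀ c : C.A (X.prod Y), C.Deg i c → c ∈ Mixed C h l i :=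
  hartshorne_iff_correspondences (by omega) hH

end Pool.Agent.Results.MP_4be043_ag.CorrespondencesOfHypersurfaces
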