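import Pool.Agent.Q72.HJ.Main

/-!
# Hartshorne's conjecture on Chow groups of hypersurfaces: the middle codimension

`𝒱` is the class of smooth projective complex varieties (or any class of smooth proper varieties over
a field `k` closed under products with the properties below), `C` the Chow groups with rational
coefficients (in the form of their formal properties, `IsChowProj`). The relation `Hyp d s X h` means
that `X` is a smooth hypersurface of degree `d` and dimension `≥ 1` with an equation
`g(x) + ∑_{i ≤ s} (y_i^d + z_i^d) = 0` (so for `s = 0` any smooth hypersurface), and `h` is the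
hyperplane class; `Crv d T l`: `T` is a smooth plane curve of degree `d`, `l` the class of a line
section. The hypotheses are known facts about them (`IsHypersurfaces`: hyperplane sections, the
coverings `x_i ↦ x_i^e`, and the joins of `X` with `y^d + z^d = 0` and with plane curves) and the
theorem of C. Schoen on exterior products with zero-cycles of degree zero on elliptic curves
(`NonzeroProducts`). `Spanned Hyp d s n i` means that `A^i(X)` is spanned by `h^i` for all `X` of
dimension `n` with `Hyp d s X h`.

Theorem. Let `D` be a set of positive integers in which every element divides an element divisible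
by `3` (for instance the set of all positive integers, or `D = {d}` if `3` divides `d`). Then
Hartshorne's conjecture for the degrees in `D` (`A^i(X) = ℚ h^i` for all smooth hypersurfaces `X` of
degree `d ∈ D`, of any dimension `n`, and all `i < n / 2`) holds if and only if for all `d ∈ D` and all
`r` there are one multiple `e ∈ D` of `d` and one `m ≥ r` such that `A^m(X) = ℚ h^m` for the smooth
hypersurfaces `X` of degree `e` and dimension `2 m + 1` with an equation
`g(x_0, ..., x_(2r+2)) + y_1^e + ... + y_(2(m-r))^e = 0`.

The proof: if `b ∈ A^i(X)` is not a multiple of `h^i` then, for the join `W` of `X` with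
`y^d + z^d = 0`, of dimension `n + 2`, the cone over `b` with one of the `d` vertices is not a multiple
of `h'^(i+1)`, since its restriction to the cone over `X` with another vertex is `b`. If moreover
`h b = 0`, and `t` is a zero-cycle of degree zero on a plane curve `T` of degree `d` with
`b × t ≠ 0` (Schoen), then the union of the lines which join `b` and `t`, in the join `W` of `X` and
`T`, of dimension `n + 3`, is a class in `A^(i+2)(W)` which is not a multiple of `h'^(i+2)`. The
second step diminishes `n - 2 i` by one, the first step does not change it.
-/

open CategoryTheory AlgebraicGeometry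

set_option autoImplicit false

universe u v

namespace Pool.Agent.Results.MP_4be043_ag.MiddleCodimension

open Pool.Agent.H914 Pool.Agent.W492.BB Pool.Agent.TH133 Pool.Agent.Q72.HJ

/-- Hartshorne's conjecture on the Chow groups of hypersurfaces is equivalent to its case
`A^m(X) = ℚ h^m`, `dim X = 2 m + 1`, for hypersurfaces which are of Fermat type in all variables but
`2 r + 3`, for one `m ≥ r` for each `r` and for one multiple of each degree. -/
theorem result {k : Type u} [Field k] {𝒱 : VarClass k} (C : TheoryData.{u, v, 0} 𝒱 ℚ)
    [IsChowProj C] (Hyp : HypFam C) (Crv : CrvFam C) (hH : IsHypersurfaces C Hyp Crv)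
    (hP : NonzeroProducts C Crv) (D : Set ℕ) (hD : ∀ d ∈ D, 1 ≤ d ∧ ∃ e ∈ D, d ∣ e ∧ 3 ∣ e) :
    (∀ d ∈ D, ∀ n i : ℕ, 2 * i < n → Spanned Hyp d 0 n i) ↔
      ∀ d ∈ D, ∀ r : ℕ, ∃ e ∈ D, ∃ m : ℕ, d ∣ e ∧ r ≤ m ∧
        Spanned Hyp e (m - r) (2 * m + 1) m :=
  some_degrees hH hP D hD

end Pool.Agent.Results.MP_4be043_ag.MiddleCodimension
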