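import Mathlib
import Pool.Agent.Q63.KU.Dec

/-!
# Hartshorne's conjecture for sums of forms in few variables

Let `X ⊂ P^(n+1)` be a smooth complex hypersurface of degree `m` whose equation is a sum `∑ f_j` of forms in
disjoint sets of `s_j` variables, `n + 2 = ∑ s_j`, where

* `m = 3` and all `s_j ≤ 3`;
* or `m = 4` and all `s_j ≤ 2`;
* or `m = 6` and all `s_j = 1`.

(A binary cubic form is a sum of two cubes of linear forms, so for `m = 3` we may assume that all `s_j` are `1` or `3`.)
Then `CH^i(X)_ℚ = ℚ h^i` for all `i < n / 2` with `i ≤ (n + 2) / m`, and for all `i < n / 2` if `n ≤ 12`, `n ≤ 7`, `n ≤ 5`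
for `m = 3`, `4`, `6`.

By the inductive structure of Katsura and Shioda `X` is dominated by the product of the varieties `f_j = z_j ^ m` and
a Fermat variety, and the Chow motive of `X` is a sum of twists `ℚ(-i)` and of the parts for the characters `a` of the
group `(μ_m)^r`, which acts on the `r` sets of variables. For `m = 3`, `s_j = 3` the cubic surface `f_j = z^3` is rational, and
the curve `E_j : f_j = 0` is an elliptic curve; for `m = 4`, `s_j = 2` the curve `f_j = z^4` is a quartic whose Jacobian is
isogenous to the product of the elliptic curve `E_j : w^2 = f_j` and of two curves with complex multiplication by `ℤ[i]`.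
Let `L` be the part of `h^1` of the elliptic curve with complex multiplication by `ℤ[i]` or `ℤ[ω]` on which these numbers
act by their conjugates. The part of `h(X)` for `a` is isomorphic to a sum of copies of the twist by `-t` of
`⊗ h^1(E_j) ⊗ L^{⊗ k}`, where the product is over the `j` with `IsElliptic`, the number `k` is the absolute value of
`(∑ dev) / m`, and `n = K + 2 t`, where `K = level a` is the number of all factors. Cycles of codimension `i`
correspond to cycles of codimension `i - t` in the part `h^K` of the motive of a product `B` of `K` elliptic curves. If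
`i - t ≤ 1` and `i < n / 2` these vanish, since `CH^0(B)` and `CH^1(B)` have no parts in `h^K(B)` for `K > 0`, `K > 2`.
-/

set_option autoImplicit false

namespace Pool.Agent.Results.MP_4be043_ag.SumsOfForms

open Multiplicative Pool.Agent.Q63.KU

/-- The `j`-th factor is the motive `h^1` of an elliptic curve: the curve `f_j = 0` if `m = 3`, `s_j = 3`, and the curve
`w ^ 2 = f_j` if `m = 4`, `s_j = 2`. -/
def IsElliptic (m s : ℕ) (x : ZMod m) : Prop := (m = 3 ∧ s = 3 ∧ x.val = 0) ∨ (m = 4 ∧ s = 2 ∧ x.val = 2)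

open Classical in
/-- The contribution of the `j`-th set of variables to `m (p - q)`, `(p, q)` the Hodge type of the remaining
factors. -/
noncomputable def dev (m s : ℕ) (x : ZMod m) : ℤ :=
  if IsElliptic m s x then 0
  else if m = 4 ∧ s = 2 then (if x.val = 1 then -2 else if x.val = 3 then 2 else 0)
  else m - 2 * x.val

open Classical in
/-- The number of the factors `h^1` of elliptic curves in the part of the motive of `X` for the character `a`. -/
noncomputable def level {m r : ℕ} (size : Fin r → ℕ) (a : Fin r → ZMod m) : ℕ :=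
  (Finset.univ.filter fun j => IsElliptic m (size j) (a j)).card +
    (∑ j, dev m (size j) (a j)).natAbs / m

/-- The degrees and the numbers of variables: cubic forms in one or three variables, quartic forms in one or two
variables, or sixth powers of one variable. -/
def Allowed (m : ℕ) {r : ℕ} (size : Fin r → ℕ) : Prop :=
  (m = 3 ∧ ∀ j, size j = 1 ∨ size j = 3) ∨ (m = 4 ∧ ∀ j, size j = 1 ∨ size j = 2) ∨
    (m = 6 ∧ ∀ j, size j = 1)

/-- The part of the representation `V` for the character `a`. -/
def part {V : Type} [AddCommGroup V] [Module ℂ V] {m r : ℕ} (ψ : AddChar (ZMod m) ℂ)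
    (ρ : Representation ℂ (Multiplicative (Fin r → ZMod m)) V) (a : Fin r → ZMod m) : Set V :=
  {u | ∀ h : Fin r → ZMod m, ρ (ofAdd h) u = ψ (∑ i, a i * h i) • u}

/-- `X ⊂ P^(n+1)` is a smooth hypersurface of degree `m` with an equation `∑ f_j = 0`, where the forms `f_j` depend on
disjoint sets of `size j` variables. `V i` is the space of the homologically trivial cycles of
codimension `i` on `X`, with coefficients in `ℂ`, modulo rational equivalence, and `ρ i` is the action of the group
`(ℤ/m)^r = (μ_m)^r`, which acts by scalars on the sets of variables. -/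
structure SumOfForms (m n : ℕ) {r : ℕ} [NeZero m] (size : Fin r → ℕ) (ψ : AddChar (ZMod m) ℂ) {V : ℕ → Type}
    [∀ i, AddCommGroup (V i)] [∀ i, Module ℂ (V i)]
    (ρ : ∀ i, Representation ℂ (Multiplicative (Fin r → ZMod m)) (V i)) : Prop where
  /-- the number of the variables -/
  number : ∑ j, size j = n + 2
  /-- a character with `a j = 0` for a set with one variable does not occur in the primitive cohomology -/
  characters : ∀ i, ∀ a : Fin r → ZMod m, (∃ j, size j = 1 ∧ a j = 0) → ∀ u ∈ part ψ (ρ i) a, u = 0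
  /-- The part of the motive of `X` for `a` is the twist by `-t`, `n = level a + 2 t`, of a sum of factors of
  `h^(level a)(B)`, `B` a product of `level a` elliptic curves (Katsura, Shioda), and the parts in `h^K(B)` of the Chow
  groups of codimension `0` and `1` vanish for `K > 0` and `K > 2`. This is the case `2 i + level a ≤ n + 2`, that is
  `i ≤ t + 1` (`2 i + level a` and `n` have the same parity). -/
  known : Allowed m size → ∀ i, 2 * i < n → ∀ a : Fin r → ZMod m, 2 * i + level size a ≤ n + 3 →
    ∀ u ∈ part ψ (ρ i) a, u = 0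

lemma term_le {m s : ℕ} [NeZero m] (h : (m = 3 ∧ (s = 1 ∨ s = 3)) ∨ (m = 4 ∧ (s = 1 ∨ s = 2)) ∨ (m = 6 ∧ s = 1))
    (x : ZMod m) (hx : ¬ (s = 1 ∧ x = 0)) [Decidable (IsElliptic m s x)] :
    m * (if IsElliptic m s x then 1 else 0) + (dev m s x).natAbs ≤ (m - 2) * s := by
  classical
  have hlt := ZMod.val_lt x
  have hv : s = 1 → x.val ≠ 0 := fun hs h0 => hx ⟨hs, (ZMod.val_eq_zero x).1 h0⟩
  unfold dev
  rcases h with ⟨hm, rfl | rfl⟩ | ⟨hm, rfl | rfl⟩ | ⟨hm, rfl⟩
  · have h1 : ¬ IsElliptic m 1 x := by unfold IsElliptic; omega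
    rw [if_neg h1, if_neg h1, if_neg (by omega)]
    have := hv rfl
    omega
  · by_cases h1 : IsElliptic m 3 x
    · rw [if_pos h1, if_pos h1]
      omega
    · rw [if_neg h1, if_neg h1, if_neg (by omega)]
      have h2 : x.val ≠ 0 := fun h0 => h1 (Or.inl ⟨hm, rfl, h0⟩)
      omega
  · have h1 : ¬ IsElliptic m 1 x := by unfold IsElliptic; omega
    rw [if_neg h1, if_neg h1, if_neg (by omega)]
    have := hv rfl
    omega
  · by_cases h1 : IsElliptic m 2 x
    · rw [if_pos h1, if_pos h1]
      omega
    · rw [if_neg h1, if_neg h1, if_pos ⟨hm, rfl⟩]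
      split_ifs <;> omega
  · have h1 : ¬ IsElliptic m 1 x := by unfold IsElliptic; omega
    rw [if_neg h1, if_neg h1, if_neg (by omega)]
    have := hv rfl
    omega

lemma level_le {m n r : ℕ} [NeZero m] {size : Fin r → ℕ} (h : Allowed m size) (hn : ∑ j, size j = n + 2)
    (a : Fin r → ZMod m) (ha : ∀ j, ¬ (size j = 1 ∧ a j = 0)) : m * level size a ≤ (m - 2) * (n + 2) := by
  classical
  have h1 : ∀ j, (m = 3 ∧ (size j = 1 ∨ size j = 3)) ∨ (m = 4 ∧ (size j = 1 ∨ size j = 2)) ∨
      (m = 6 ∧ size j = 1) := by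
    intro j
    rcases h with ⟨h, h'⟩ | ⟨h, h'⟩ | ⟨h, h'⟩
    · exact Or.inl ⟨h, h' j⟩
    · exact Or.inr (Or.inl ⟨h, h' j⟩)
    · exact Or.inr (Or.inr ⟨h, h' j⟩)
  have h2 : (∑ j, dev m (size j) (a j)).natAbs ≤ ∑ j, (dev m (size j) (a j)).natAbs :=
    Int.natAbs_sum_le _ _
  have h3 : m * ((∑ j, dev m (size j) (a j)).natAbs / m) ≤ (∑ j, dev m (size j) (a j)).natAbs :=
    Nat.mul_div_le _ _
  have h4 : (Finset.univ.filter fun j => IsElliptic m (size j) (a j)).card =
      ∑ j, if IsElliptic m (size j) (a j) then 1 else 0 := by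
    rw [Finset.card_filter]
  have h5 : ∑ j, (m * (if IsElliptic m (size j) (a j) then 1 else 0) + (dev m (size j) (a j)).natAbs) ≤
      ∑ j, (m - 2) * size j := Finset.sum_le_sum fun j _ => term_le (h1 j) (a j) (ha j)
  rw [Finset.sum_add_distrib, ← Finset.mul_sum, ← Finset.mul_sum, hn] at h5
  unfold level
  rw [mul_add]
  have h6 : m * (Finset.univ.filter fun j => IsElliptic m (size j) (a j)).card =
      m * ∑ j, (if IsElliptic m (size j) (a j) then 1 else 0) := by rw [h4]
  calc _ ≤ m * ∑ j, (if IsElliptic m (size j) (a j) then 1 else 0) + ∑ j, (dev m (size j) (a j)).natAbs := by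
        convert Nat.add_le_add h6.le (h3.trans h2)
    _ ≤ (m - 2) * (n + 2) := h5

/-- **Hartshorne's conjecture for sums of forms in few variables.** `V i = 0` is the statement
`CH^i(X)_ℚ = ℚ h^i` for `i < n / 2`. -/
theorem result (m n r : ℕ) [NeZero m] (size : Fin r → ℕ) (hs : Allowed m size) (ψ : AddChar (ZMod m) ℂ)
    (hψ : ψ.IsPrimitive) {V : ℕ → Type} [∀ i, AddCommGroup (V i)] [∀ i, Module ℂ (V i)]
    (ρ : ∀ i, Representation ℂ (Multiplicative (Fin r → ZMod m)) (V i))
    (hX : SumOfForms m n size ψ ρ) (i : ℕ) (hi : 2 * i < n)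
    (h : m * i ≤ n + 2 ∨ (m = 3 ∧ n ≤ 12) ∨ (m = 4 ∧ n ≤ 7) ∨ (m = 6 ∧ n ≤ 5)) :
    ∀ u : V i, u = 0 := by
  classical
  intro u
  rw [← sum_comp (ρ := ρ i) hψ u]
  refine Finset.sum_eq_zero fun a _ => ?_
  have hmem : comp (ρ i) ψ u a ∈ part ψ (ρ i) a := fun h => act_comp u a h
  by_cases ha : ∃ j, size j = 1 ∧ a j = 0
  · exact hX.characters i a ha _ hmem
  · push Not at ha
    have h1 := level_le hs hX.number a fun j hj => ha j hj.1 hj.2
    refine hX.known hs i hi a ?_ _ hmem
    have hm : m = 3 ∨ m = 4 ∨ m = 6 := by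
      rcases hs with ⟨h, -⟩ | ⟨h, -⟩ | ⟨h, -⟩ <;> omega
    generalize level size a = K at h1 ⊢
    rcases hm with h2 | h2 | h2 <;> rw [h2] at h1 h <;> omega

end Pool.Agent.Results.MP_4be043_ag.SumsOfForms
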