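import Pool.Agent.Q72.DP.Hart

/-!
# Hartshorne's conjecture on Chow groups of hypersurfaces and vector bundles

`𝒱` is the class of smooth projective complex varieties (or any class of smooth proper varieties over
a field `k` closed under products), `C` the Chow groups with rational coefficients (in the form of
their formal properties, `IsChowProj`), `B` the Grothendieck rings of vector bundles (with their
known properties, `IsKTheory`). `X` is a smooth hypersurface of dimension `n` and `h` the class of a
hyperplane section; the only property of `X` which is used is the known one that `h · A^i(X)` is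
spanned by `h^(i+1)` and `h^n ≠ 0` (`IsHyperplaneClass`).

Theorem. (a) For `1 ≤ i < n` the following are equivalent:
* `A^i(X)` is spanned by `h^i`;
* every vector bundle on `X` of rank `m ≥ i` with `c_j = 0` for `0 < j < i` and `h c_j = 0` for
  `j ≥ i` has `c_i = 0`;
* for every projective bundle `f : P → X` of a vector bundle of rank `m ≥ i`, with tautological class
  `ξ`: if `f_* (ξ^(m-1+j)) = 0` for `0 < j < i` and `f^*(h) ξ^m = 0` then `f_* (ξ^(m-1+i)) = 0`.
(b) For `l ≤ n` (for the problem, `l` is the least integer `≥ n / 2`) the following are equivalent: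
* `A^i(X)` is spanned by `h^i` for all `0 ≤ i < l`;
* every vector bundle on `X` of rank `m` with `h c_j = 0` for all `j ≥ 1` has `c_i = 0` for `0 < i < l`;
* for every projective bundle `f : P → X` of a vector bundle of rank `m`, with tautological class `ξ`:
  if `f^*(h) ξ^m = 0` then `f_* (ξ^(m-1+i)) = 0` for `0 < i < l`.
-/

open CategoryTheory AlgebraicGeometry

set_option autoImplicit false

universe u v

namespace Pool.Agent.Results.MP_4be043_ag.VectorBundles

open Pool.Agent.H914 Pool.Agent.W492.BB Pool.Agent.TH133 Pool.Agent.Q72.DP

/-- Hartshorne's conjecture for a hypersurface `X` is equivalent to the vanishing of the Chern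
classes `c_i`, `0 < i < n / 2`, of the vector bundles on `X` all of whose Chern classes are killed by
`h`. -/
theorem result {k : Type u} [Field k] {𝒱 : VarClass k} (C : TheoryData.{u, v, 0} 𝒱 ℚ)
    [IsChowProj C] (B : BundleData C) (hB : B.IsKTheory) (X : 𝒱.Obj) (h : C.A X)
    (hh : IsHyperplaneClass C h) :
    (∀ i : ℕ, 1 ≤ i → i < X.dim → [SpannedBy h i, BundleAt B h i, TautAt B h i].TFAE) ∧
      ∀ l : ℕ, l ≤ X.dim →
        [∀ i : ℕ, i < l → SpannedBy h i, BundleBelow B h l, TautBelow B h l].TFAE :=
  ⟨fun _ hi hi' => hart_at hB hh hi hi', fun _ hl => hart_below hB hh hl⟩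

end Pool.Agent.Results.MP_4be043_ag.VectorBundles
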